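import Pool.Agent.Helper23.Vojta.Gauss

/-!
# Coprime families, boxes and zero sets
-/

set_option autoImplicit false

namespace Pool.Agent.Helper79.Vojta

open Finset Pool.Agent.Helper23.Vojta

/-- The family has no common divisor but units. -/
def CopFam {A : Type*} [CommRing A] {ι : Type*} (f : ι → A) : Prop :=
  ∀ h, (∀ i, h ∣ f i) → IsUnit h

/-- Clearing denominators in an ideal. -/
theorem clear_ideal {R : Type} [CommRing R] [IsDomain R] {ι : Type*} (f : ι → Polynomial R)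
    (y : Polynomial (FractionRing R))
    (hy : y ∈ Ideal.span (Set.range fun i => (f i).map (algebraMap R (FractionRing R)))) :
    ∃ (b : R) (P : Polynomial R), b ≠ 0 ∧ P ∈ Ideal.span (Set.range f) ∧
      P.map (algebraMap R (FractionRing R)) =
        Polynomial.C (algebraMap R (FractionRing R) b) * y := by
  set φ := algebraMap R (FractionRing R) with hφ
  induction hy using Submodule.span_induction with
  | mem y hy =>
    obtain ⟨i, rfl⟩ := hy
    exact ⟨1, f i, one_ne_zero, Ideal.subset_span ⟨i, rfl⟩, by simp⟩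
  | zero => exact ⟨1, 0, one_ne_zero, Ideal.zero_mem _, by simp⟩
  | add y z _ _ hy hz =>
    obtain ⟨b, P, hb, hP, hP'⟩ := hy
    obtain ⟨c, Q, hc, hQ, hQ'⟩ := hz
    refine ⟨b * c, Polynomial.C c * P + Polynomial.C b * Q, mul_ne_zero hb hc,
      Ideal.add_mem _ (Ideal.mul_mem_left _ _ hP) (Ideal.mul_mem_left _ _ hQ), ?_⟩
    simp only [Polynomial.map_add, Polynomial.map_mul, Polynomial.map_C, map_mul, hP', hQ']
    ring
  | smul a y _ hy =>
    obtain ⟨b, P, hb, hP, hP'⟩ := hy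
    obtain ⟨Q, c, hc, hQ⟩ := clear a
    rw [← hφ] at hQ
    refine ⟨c * b, Q * P, mul_ne_zero hc hb, Ideal.mul_mem_left _ _ hP, ?_⟩
    simp only [Polynomial.map_mul, hP', hQ, map_mul, smul_eq_mul]
    ring

/-- Bézout for coprime families of polynomials over a factorial ring. -/
theorem bezout_family {R : Type} [CommRing R] [IsDomain R] [UniqueFactorizationMonoid R]
    {ι : Type*} (f : ι → Polynomial R) (h : CopFam f) :
    ∃ r : R, r ≠ 0 ∧ Polynomial.C r ∈ Ideal.span (Set.range f) := by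
  classical
  set φ := algebraMap R (FractionRing R) with hφ
  have hinj : Function.Injective φ := IsFractionRing.injective R (FractionRing R)
  have hminj := Polynomial.map_injective φ hinj
  set I : Ideal (Polynomial (FractionRing R)) :=
    Ideal.span (Set.range fun i => (f i).map φ) with hI
  obtain ⟨h0, hh0⟩ := (IsPrincipalIdealRing.principal I).principal
  rw [Ideal.submodule_span_eq] at hh0
  have hdvd : ∀ i, h0 ∣ (f i).map φ := by
    intro i
    rw [← Ideal.mem_span_singleton, ← hh0]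
    exact Ideal.subset_span ⟨i, rfl⟩
  by_cases hu : IsUnit h0
  · have h1 : (1 : Polynomial (FractionRing R)) ∈ I := by
      rw [hh0, Ideal.mem_span_singleton]
      exact hu.dvd
    obtain ⟨b, P, hb, hP, hPb⟩ := clear_ideal f 1 h1
    refine ⟨b, hb, ?_⟩
    have h2 : P = Polynomial.C b := by
      apply hminj
      rw [hPb, mul_one, Polynomial.map_C]
    rwa [← h2]
  · exfalso
    have hne : h0 ≠ 0 := by
      intro h00
      have h1 : ∀ i, f i = 0 := by
        intro i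
        have := hdvd i
        rw [h00, zero_dvd_iff] at this
        exact (Polynomial.map_eq_zero_iff hinj).1 this
      have h2 := h 0 (fun i => by rw [h1 i])
      exact not_isUnit_zero h2
    obtain ⟨H, b, hb, hH⟩ := clear h0
    have hHdeg : 0 < H.natDegree := by
      have h1 : (H.map φ).natDegree = H.natDegree := Polynomial.natDegree_map_eq_of_injective hinj H
      have h2 : φ b ≠ 0 := by
        intro h3
        exact hb (hinj (by rw [h3, map_zero]))
      rw [← h1, hH, Polynomial.natDegree_C_mul h2]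
      by_contra h3
      have h4 : h0.natDegree = 0 := by omega
      apply hu
      rw [Polynomial.eq_C_of_natDegree_eq_zero h4] at hne ⊢
      rw [Polynomial.isUnit_C]
      rw [Polynomial.C_ne_zero] at hne
      exact isUnit_iff_ne_zero.2 hne
    have key : ∀ q : Polynomial R, h0 ∣ q.map φ → ∃ s : R, s ≠ 0 ∧ H ∣ Polynomial.C s * q := by
      rintro q ⟨t, ht⟩
      obtain ⟨T, c, hc, hT⟩ := clear t
      refine ⟨b * c, mul_ne_zero hb hc, T, ?_⟩
      apply hminj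
      simp only [Polynomial.map_mul, Polynomial.map_C]
      rw [hH, hT, ht, map_mul, Polynomial.C_mul]
      ring
    obtain ⟨p, hp, hpd, hpH⟩ := exists_prime_pos_degree hHdeg
    have key2 : ∀ q : Polynomial R, h0 ∣ q.map φ → p ∣ q := by
      intro q hq
      obtain ⟨s, hs, hHs⟩ := key q hq
      rcases hp.dvd_or_dvd (hpH.trans hHs) with h1 | h1
      · exfalso
        have h2 := Polynomial.natDegree_le_of_dvd h1 (Polynomial.C_ne_zero.2 hs)
        rw [Polynomial.natDegree_C] at h2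
        omega
      · exact h1
    exact hp.not_isUnit (h p (fun i => key2 _ (hdvd i)))

/-- Polynomials are bounded by a power of `B` on the box. -/
theorem abs_eval_le_pow {m : ℕ} (w : Fin m → ℕ) (r : MvPolynomial (Fin m) ℤ) :
    ∃ (c : ℝ) (K : ℕ), 1 ≤ c ∧ ∀ B : ℝ, 1 ≤ B → ∀ x : Fin m → ℤ,
      (∀ i, |(x i : ℝ)| ≤ B ^ (w i)) → |((MvPolynomial.eval x r : ℤ) : ℝ)| ≤ c * B ^ K := by
  induction r using MvPolynomial.induction_on with
  | C a =>
    refine ⟨|(a : ℝ)| + 1, 0, by linarith [abs_nonneg (a : ℝ)], ?_⟩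
    intro B _ x _
    rw [MvPolynomial.eval_C]
    simp
  | add p q hp hq =>
    obtain ⟨c1, K1, hc1, h1⟩ := hp
    obtain ⟨c2, K2, hc2, h2⟩ := hq
    refine ⟨c1 + c2, K1 + K2, by linarith, ?_⟩
    intro B hB x hx
    have h3 := h1 B hB x hx
    have h4 := h2 B hB x hx
    rw [map_add]
    push_cast
    refine (abs_add_le _ _).trans ?_
    have h5 : B ^ K1 ≤ B ^ (K1 + K2) := pow_le_pow_right₀ hB (by omega)
    have h6 : B ^ K2 ≤ B ^ (K1 + K2) := pow_le_pow_right₀ hB (by omega)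
    nlinarith
  | mul_X p i hp =>
    obtain ⟨c1, K1, hc1, h1⟩ := hp
    refine ⟨c1, K1 + w i, hc1, ?_⟩
    intro B hB x hx
    rw [map_mul, MvPolynomial.eval_X]
    push_cast
    rw [abs_mul, pow_add, ← mul_assoc]
    exact mul_le_mul (h1 B hB x hx) (hx i) (abs_nonneg _) (by positivity)

/-- The box. -/
noncomputable def box {m : ℕ} (w : Fin m → ℕ) (B : ℝ) : Finset (Fin m → ℤ) :=
  Fintype.piFinset fun i => Icc (-⌊B ^ (w i)⌋) ⌊B ^ (w i)⌋

theorem mem_Icc_floor {v : ℤ} {T : ℝ} : v ∈ Icc (-⌊T⌋) ⌊T⌋ ↔ |(v : ℝ)| ≤ T := by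
  rw [mem_Icc, abs_le]
  constructor
  · rintro ⟨h1, h2⟩
    refine ⟨?_, Int.le_floor.1 h2⟩
    have h3 : -v ≤ ⌊T⌋ := by linarith
    have h4 := Int.le_floor.1 h3
    push_cast at h4
    linarith
  · rintro ⟨h1, h2⟩
    refine ⟨?_, Int.le_floor.2 h2⟩
    have h3 : -v ≤ ⌊T⌋ := Int.le_floor.2 (by push_cast; linarith)
    linarith

theorem mem_box {m : ℕ} {w : Fin m → ℕ} {B : ℝ} {x : Fin m → ℤ} :
    x ∈ box w B ↔ ∀ i, |(x i : ℝ)| ≤ B ^ (w i) := by
  unfold box
  rw [Fintype.mem_piFinset]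
  exact forall_congr' fun i => mem_Icc_floor

theorem card_Icc_floor {T : ℝ} (hT : 1 ≤ T) :
    T ≤ ((Icc (-⌊T⌋) ⌊T⌋).card : ℝ) ∧ ((Icc (-⌊T⌋) ⌊T⌋).card : ℝ) ≤ 3 * T := by
  rw [Int.card_Icc]
  have h1 : 1 ≤ ⌊T⌋ := Int.le_floor.2 (by exact_mod_cast hT)
  have h2 : ((⌊T⌋ + 1 - -⌊T⌋).toNat : ℝ) = 2 * (⌊T⌋ : ℝ) + 1 := by
    have h4 : (((⌊T⌋ + 1 - -⌊T⌋).toNat : ℤ) : ℝ) = ((⌊T⌋ + 1 - -⌊T⌋ : ℤ) : ℝ) := by
      rw [Int.toNat_of_nonneg (by omega)]
    rw [Int.cast_natCast] at h4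
    rw [h4]
    push_cast
    ring
  rw [h2]
  have h5 : (⌊T⌋ : ℝ) ≤ T := Int.floor_le T
  have h6 : T < ⌊T⌋ + 1 := Int.lt_floor_add_one T
  have h7 : (1 : ℝ) ≤ ⌊T⌋ := by exact_mod_cast h1
  constructor <;> linarith

theorem card_box {m : ℕ} (w : Fin m → ℕ) {B : ℝ} (hB : 1 ≤ B) :
    ((box w B).card : ℝ) ≤ 3 ^ m * B ^ (∑ i, w i) := by
  unfold box
  rw [Fintype.card_piFinset]
  push_cast
  have h1 : ∏ i, ((Icc (-⌊B ^ (w i)⌋) ⌊B ^ (w i)⌋).card : ℝ) ≤ ∏ i : Fin m, (3 * B ^ (w i)) :=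
    prod_le_prod (fun i _ => Nat.cast_nonneg _) fun i _ => (card_Icc_floor (one_le_pow₀ hB)).2
  refine h1.trans (le_of_eq ?_)
  rw [prod_mul_distrib, prod_pow_eq_pow_sum]
  simp

/-- Zeros of a nonzero polynomial in the box. -/
theorem card_zeros {m : ℕ} (w : Fin m → ℕ) (hw : ∀ i, 1 ≤ w i) (r : MvPolynomial (Fin m) ℤ)
    (hr : r ≠ 0) : ∃ C : ℝ, 0 ≤ C ∧ ∀ B : ℝ, 1 ≤ B → ∀ E : Finset (Fin m → ℤ),
      (∀ x ∈ E, (∀ i, |(x i : ℝ)| ≤ B ^ (w i)) ∧ MvPolynomial.eval x r = 0) →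
        (E.card : ℝ) ≤ C * (B ^ (∑ i, w i) / B) := by
  classical
  refine ⟨(∑ i, (r.degreeOf i : ℝ)) * 3 ^ m, by positivity, ?_⟩
  intro B hB E hE
  have hB0 : 0 < B := by linarith
  set Sf : Fin m → Finset ℤ := fun i => Icc (-⌊B ^ (w i)⌋) ⌊B ^ (w i)⌋ with hSf
  have h1 := MvPolynomial.schwartz_zippel_sum_degreeOf hr Sf
  have hcard : ∀ i, B ≤ ((Sf i).card : ℝ) := by
    intro i
    refine le_trans ?_ (card_Icc_floor (one_le_pow₀ hB)).1
    calc B = B ^ 1 := (pow_one B).symm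
      _ ≤ B ^ (w i) := pow_le_pow_right₀ hB (hw i)
  have hpos : ∀ i, (0 : ℝ) < ((Sf i).card : ℝ) := fun i => lt_of_lt_of_le hB0 (hcard i)
  have h2 : E.card ≤ ((Fintype.piFinset Sf).filter fun x => MvPolynomial.eval x r = 0).card := by
    refine card_le_card fun x hx => ?_
    rw [mem_filter, Fintype.mem_piFinset]
    exact ⟨fun i => mem_Icc_floor.2 ((hE x hx).1 i), (hE x hx).2⟩
  have h3 : ((((Fintype.piFinset Sf).filter fun x => MvPolynomial.eval x r = 0).card : ℕ) : ℝ) /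
      ∏ i, ((Sf i).card : ℝ) ≤ ∑ i, ((r.degreeOf i : ℝ) / ((Sf i).card : ℝ)) := by
    have := (NNRat.cast_le (K := ℝ)).2 h1
    push_cast at this
    exact this
  have hprod : (0 : ℝ) < ∏ i, ((Sf i).card : ℝ) := prod_pos fun i _ => hpos i
  rw [div_le_iff₀ hprod] at h3
  have h4 : ∑ i, ((r.degreeOf i : ℝ) / ((Sf i).card : ℝ)) ≤ (∑ i, (r.degreeOf i : ℝ)) / B := by
    rw [sum_div]
    exact sum_le_sum fun i _ => div_le_div_of_nonneg_left (Nat.cast_nonneg _) hB0 (hcard i)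
  have h5 : ∏ i, ((Sf i).card : ℝ) ≤ 3 ^ m * B ^ (∑ i, w i) := by
    have := card_box w hB
    unfold box at this
    rw [Fintype.card_piFinset] at this
    push_cast at this
    exact this
  calc (E.card : ℝ) ≤ ((((Fintype.piFinset Sf).filter fun x =>
          MvPolynomial.eval x r = 0).card : ℕ) : ℝ) := by exact_mod_cast h2
    _ ≤ (∑ i, ((r.degreeOf i : ℝ) / ((Sf i).card : ℝ))) * ∏ i, ((Sf i).card : ℝ) := h3
    _ ≤ ((∑ i, (r.degreeOf i : ℝ)) / B) * (3 ^ m * B ^ (∑ i, w i)) := by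
        refine mul_le_mul h4 h5 hprod.le (by positivity)
    _ = _ := by ring

end Pool.Agent.Helper79.Vojta
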