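import Pool.Agent.Helper79.Vojta.Roots
import Pool.Agent.Helper79.Vojta.Fam

/-!
# Points at which a coprime family has a large common squarefree divisor
-/

set_option autoImplicit false

namespace Pool.Agent.Helper79.Vojta

open Finset MvPolynomial

/-- Splitting a squarefree number according to a property of its prime factors. -/
theorem split_squarefree {g : ℕ} (hg : Squarefree g) (p : ℕ → Prop) [DecidablePred p] :
    (∏ q ∈ g.primeFactors.filter p, q) * (∏ q ∈ g.primeFactors.filter (fun q => ¬ p q), q) = g := by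
  rw [prod_filter_mul_prod_filter_not, Nat.prod_primeFactors_of_squarefree hg]

theorem prime_dvd_prod {s : Finset ℕ} (hs : ∀ q ∈ s, q.Prime) {q : ℕ} (hq : q.Prime)
    (h : q ∣ ∏ x ∈ s, x) : q ∈ s := by
  obtain ⟨x, hx, hqx⟩ := (hq.prime.dvd_finsetProd_iff _).1 h
  rwa [(Nat.prime_dvd_prime_iff_eq hq (hs x hx)).1 hqx]

theorem prod_dvd_int {s : Finset ℕ} (hs : ∀ q ∈ s, q.Prime) {a : ℤ}
    (h : ∀ q ∈ s, (q : ℤ) ∣ a) : ((∏ x ∈ s, x : ℕ) : ℤ) ∣ a := by
  rw [Int.natCast_dvd]
  exact Finset.prod_primes_dvd _ (fun p hp => (hs p hp).prime)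
    (fun p hp => Int.natCast_dvd.1 (h p hp))

theorem fibre_bound {ι : Type*} (P : ι → Polynomial ℤ) (e : ℕ)
    (hP : ∀ i, (P i).natDegree ≤ e) (he : 1 ≤ e) (R : ℤ) (hR : R ≠ 0)
    (hdiv : ∀ (y : ℤ) (g : ℕ), (∀ i, (g : ℤ) ∣ (P i).eval y) → (g : ℤ) ∣ R) (U V M : ℝ)
    (hU : ∀ g : ℕ, Squarefree g → (∀ i j, (g : ℤ) ∣ (P i).coeff j) → (g : ℝ) ≤ U)
    (hV : 0 < V) (hM : 0 ≤ M) (Y : Finset ℤ)
    (hY : ∀ y ∈ Y, |(y : ℝ)| ≤ M ∧ ∃ g : ℕ, Squarefree g ∧ U * V < g ∧
      ∀ i, (g : ℤ) ∣ (P i).eval y) :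
    (Y.card : ℝ) ≤ ((2 * e : ℕ) : ℝ) ^ R.natAbs.primeFactors.card * (2 * M / V + 2) := by
  classical
  have hR0 : R.natAbs ≠ 0 := Int.natAbs_ne_zero.2 hR
  set G : Finset ℕ := (R.natAbs.divisors.filter Squarefree).filter
    (fun g => V ≤ g ∧ ∀ q : ℕ, q.Prime → q ∣ g → ∃ i j, ¬ (q : ℤ) ∣ (P i).coeff j) with hG
  have hsub : Y ⊆ G.biUnion (fun g => Y.filter (fun y => ∀ i, (g : ℤ) ∣ (P i).eval y)) := by
    intro y hy
    obtain ⟨-, g, hg, hgUV, hgd⟩ := hY y hy
    set p : ℕ → Prop := fun q => ∀ i j, (q : ℤ) ∣ (P i).coeff j with hp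
    set g2 : ℕ := ∏ q ∈ g.primeFactors.filter p, q with hg2
    set g1 : ℕ := ∏ q ∈ g.primeFactors.filter (fun q => ¬ p q), q with hg1
    have hmul : g2 * g1 = g := split_squarefree hg p
    have hg1d : g1 ∣ g := ⟨g2, by rw [← hmul, mul_comm]⟩
    have hg2d : g2 ∣ g := ⟨g1, hmul.symm⟩
    have hg0 : 0 < g := Nat.pos_of_ne_zero hg.ne_zero
    have h2 : (g2 : ℝ) ≤ U := by
      refine hU g2 (hg.squarefree_of_dvd hg2d) fun i j => ?_
      refine prod_dvd_int (fun q hq => Nat.prime_of_mem_primeFactors (mem_filter.1 hq).1) ?_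
      intro q hq
      exact (mem_filter.1 hq).2 i j
    have hg1pos : 0 < g1 := Nat.pos_of_dvd_of_pos hg1d hg0
    have hg2pos : 0 < g2 := Nat.pos_of_dvd_of_pos hg2d hg0
    have h3 : V ≤ g1 := by
      by_contra hcon
      push Not at hcon
      have h4 : (g : ℝ) = g2 * g1 := by exact_mod_cast hmul.symm
      have h5 : (0 : ℝ) < g2 := by exact_mod_cast hg2pos
      have h6 : (0 : ℝ) < g1 := by exact_mod_cast hg1pos
      have h7 : (g2 : ℝ) * g1 ≤ U * V := mul_le_mul h2 hcon.le h6.le (h5.le.trans h2)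
      rw [h4] at hgUV
      linarith
    have hgd1 : ∀ i, (g1 : ℤ) ∣ (P i).eval y := fun i =>
      (Int.natCast_dvd_natCast.2 hg1d).trans (hgd i)
    rw [mem_biUnion]
    refine ⟨g1, ?_, mem_filter.2 ⟨hy, hgd1⟩⟩
    rw [hG, mem_filter, mem_filter, Nat.mem_divisors]
    refine ⟨⟨⟨Int.natCast_dvd.1 (hdiv y g1 hgd1), hR0⟩, hg.squarefree_of_dvd hg1d⟩, h3, ?_⟩
    intro q hq hqg
    have h4 := prime_dvd_prod
      (fun x hx => Nat.prime_of_mem_primeFactors (mem_filter.1 hx).1) hq hqg
    have h5 := (mem_filter.1 h4).2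
    rw [hp] at h5
    push Not at h5
    exact h5
  have hGcard : (G.card : ℝ) ≤ (2 : ℝ) ^ R.natAbs.primeFactors.card := by
    have h : G.card ≤ 2 ^ R.natAbs.primeFactors.card :=
      (card_filter_le (R.natAbs.divisors.filter Squarefree) _).trans (card_squarefree_divisors hR0)
    exact_mod_cast h
  have hterm : ∀ g ∈ G, ((Y.filter (fun y => ∀ i, (g : ℤ) ∣ (P i).eval y)).card : ℝ) ≤
      (e : ℝ) ^ R.natAbs.primeFactors.card * (2 * M / V + 2) := by
    intro g hgG
    rw [hG, mem_filter, mem_filter, Nat.mem_divisors] at hgG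
    obtain ⟨⟨⟨hgd, -⟩, hgs⟩, hgV, hgq⟩ := hgG
    have h1 := card_roots_interval P e g hgs (by
      intro q hq hqg
      obtain ⟨i, j, hij⟩ := hgq q hq hqg
      refine ⟨i, ?_, hP i⟩
      intro h0
      have h2 : ((P i).map (Int.castRingHom (ZMod q))).coeff j = 0 := by rw [h0]; simp
      rw [Polynomial.coeff_map, eq_intCast, ZMod.intCast_zmod_eq_zero_iff_dvd] at h2
      exact hij h2) M hM (Y.filter (fun y => ∀ i, (g : ℤ) ∣ (P i).eval y)) (by
      intro y hy
      have h2 := mem_filter.1 hy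
      exact ⟨(hY y h2.1).1, h2.2⟩)
    have hgR : (0 : ℝ) < g := lt_of_lt_of_le hV hgV
    have he' : (1 : ℝ) ≤ e := by exact_mod_cast he
    refine h1.trans (mul_le_mul ?_ ?_ (by positivity) (by positivity))
    · exact pow_le_pow_right₀ he' (card_le_card (Nat.primeFactors_mono hgd hR0))
    · have : 2 * M / g ≤ 2 * M / V := div_le_div_of_nonneg_left (by linarith) hV hgV
      linarith
  have h1 : (Y.card : ℝ) ≤
      ∑ g ∈ G, ((Y.filter (fun y => ∀ i, (g : ℤ) ∣ (P i).eval y)).card : ℝ) := by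
    have := (card_le_card hsub).trans card_biUnion_le
    exact_mod_cast this
  calc (Y.card : ℝ) ≤ ∑ g ∈ G, ((Y.filter (fun y => ∀ i, (g : ℤ) ∣ (P i).eval y)).card : ℝ) := h1
    _ ≤ ∑ _g ∈ G, (e : ℝ) ^ R.natAbs.primeFactors.card * (2 * M / V + 2) := sum_le_sum hterm
    _ = G.card * ((e : ℝ) ^ R.natAbs.primeFactors.card * (2 * M / V + 2)) := by
        rw [sum_const, nsmul_eq_mul]
    _ ≤ (2 : ℝ) ^ R.natAbs.primeFactors.card *
        ((e : ℝ) ^ R.natAbs.primeFactors.card * (2 * M / V + 2)) :=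
        mul_le_mul_of_nonneg_right hGcard (by positivity)
    _ = _ := by
        push_cast
        rw [mul_pow]
        ring

/-- Counting by fibres over the last coordinates. -/
theorem card_fibres {m : ℕ} (E : Finset (Fin (m + 1) → ℤ)) (T : ℝ) (X : Finset (Fin m → ℤ))
    (h1 : ∀ x ∈ E, Fin.tail x ∈ X)
    (h2 : ∀ x' ∈ X, ∀ Y : Finset ℤ,
      (∀ y ∈ Y, (Fin.cons y x' : Fin (m + 1) → ℤ) ∈ E) → (Y.card : ℝ) ≤ T) :
    (E.card : ℝ) ≤ X.card * T := by
  classical
  rw [card_eq_sum_card_fiberwise (f := fun x : Fin (m + 1) → ℤ => Fin.tail x) (t := X)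
    (fun x hx => h1 x hx)]
  push_cast
  rw [← nsmul_eq_mul]
  refine sum_le_card_nsmul _ _ _ fun x' hx' => ?_
  have hinj : Set.InjOn (fun x : Fin (m + 1) → ℤ => x 0)
      ((E.filter fun x => Fin.tail x = x' : Finset (Fin (m + 1) → ℤ)) : Set (Fin (m + 1) → ℤ)) := by
    intro x hx z hz hxz
    have h3 := (mem_filter.1 (mem_coe.1 hx)).2
    have h4 := (mem_filter.1 (mem_coe.1 hz)).2
    rw [← Fin.cons_self_tail x, ← Fin.cons_self_tail z, h3, h4]
    simp only at hxz
    rw [hxz]
  rw [← card_image_of_injOn hinj]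
  refine h2 x' hx' _ fun y hy => ?_
  obtain ⟨x, hx, rfl⟩ := mem_image.1 hy
  obtain ⟨hxE, hxt⟩ := mem_filter.1 hx
  rw [← hxt]
  simp only [Fin.cons_self_tail]
  exact hxE

theorem box_cons {m : ℕ} {w : Fin (m + 1) → ℕ} {B : ℝ} {y : ℤ} {x : Fin m → ℤ} :
    (∀ i, |(((Fin.cons y x : Fin (m + 1) → ℤ) i : ℤ) : ℝ)| ≤ B ^ (w i)) ↔
      |(y : ℝ)| ≤ B ^ (w 0) ∧ ∀ i, |(x i : ℝ)| ≤ B ^ (w (Fin.succ i)) := by
  rw [Fin.forall_fin_succ]
  simp

open Classical in
/-- **Common squarefree divisors**: for a coprime family `f`, the integer vectors `x` with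
`|x i| ≤ B ^ w i` for which all `f i (x)` have a common squarefree divisor `g > B ^ (m γ)` number
at most `O(B ^ (|w| + η) (B ^ (-γ) + 1 / B))`. -/
theorem gcd_count : ∀ (m : ℕ) (w : Fin m → ℕ), (∀ i, 1 ≤ w i) → ∀ (ι : Type) [Fintype ι]
    (f : ι → MvPolynomial (Fin m) ℤ), CopFam f → ∀ (η γ : ℝ), 0 < η → 0 ≤ γ →
    ∃ C : ℝ, 0 ≤ C ∧ ∀ B : ℝ, 1 ≤ B → ∀ E : Finset (Fin m → ℤ),
      (∀ x ∈ E, (∀ i, |(x i : ℝ)| ≤ B ^ (w i)) ∧ ∃ g : ℕ, Squarefree g ∧
        B ^ ((m : ℝ) * γ) < g ∧ ∀ i, (g : ℤ) ∣ eval x (f i)) →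
      (E.card : ℝ) ≤ C * (B ^ η * B ^ (∑ i, w i) * (B ^ (-γ) + B⁻¹)) := by
  intro m
  induction m with
  | zero =>
    intro w _ ι _ f hf η γ _ _
    refine ⟨0, le_rfl, ?_⟩
    intro B hB E hE
    have : E = ∅ := by
      rw [eq_empty_iff_forall_notMem]
      intro x hx
      obtain ⟨-, g, hg, hgB, hgd⟩ := hE x hx
      have h1 : IsUnit (C (g : ℤ) : MvPolynomial (Fin 0) ℤ) := by
        refine hf _ fun i => ?_
        rw [eq_C_of_isEmpty (f i)]
        refine map_dvd C ?_
        have h2 := hgd i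
        rw [eq_C_of_isEmpty (f i), eval_C] at h2
        exact h2
      have h2 : IsUnit ((g : ℤ)) := by
        have := h1.map (constantCoeff (R := ℤ) (σ := Fin 0))
        rwa [constantCoeff_C] at this
      have h3 : g = 1 := by
        have := Int.isUnit_iff_natAbs_eq.1 h2
        simpa using this
      rw [h3] at hgB
      simp at hgB
    rw [this]
    simp
  | succ m ih =>
    intro w hw ι _ f hf η γ hη hγ
    set F : ι → Polynomial (MvPolynomial (Fin m) ℤ) := fun i => finSuccEquiv ℤ m (f i) with hF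
    have hFc : CopFam F := by
      intro h hh
      have h1 : IsUnit ((finSuccEquiv ℤ m).symm h) := by
        refine hf _ fun i => ?_
        have h2 := map_dvd (finSuccEquiv ℤ m).symm (hh i)
        rwa [hF, AlgEquiv.symm_apply_apply] at h2
      have h2 := h1.map (finSuccEquiv ℤ m)
      rwa [AlgEquiv.apply_symm_apply] at h2
    obtain ⟨r, hr0, hrI⟩ := bezout_family F hFc
    set D : ℕ := ∑ i, (F i).natDegree with hD
    have hFD : ∀ i, (F i).natDegree ≤ D := fun i =>
      single_le_sum (f := fun i => (F i).natDegree) (fun _ _ => Nat.zero_le _) (mem_univ i)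
    set cf : ι × Fin (D + 1) → MvPolynomial (Fin m) ℤ := fun p => (F p.1).coeff p.2 with hcf
    have hcc : CopFam cf := by
      intro h hh
      have h1 : IsUnit (Polynomial.C h) := by
        refine hFc _ fun i => ?_
        rw [Polynomial.C_dvd_iff_dvd_coeff]
        intro j
        by_cases hj : j < D + 1
        · exact hh (i, ⟨j, hj⟩)
        · rw [Polynomial.coeff_eq_zero_of_natDegree_lt (by have := hFD i; omega)]
          exact dvd_zero _
      exact Polynomial.isUnit_C.1 h1
    obtain ⟨C1, hC1, h1⟩ := ih (fun i => w (Fin.succ i)) (fun i => hw _) (ι × Fin (D + 1)) cf hcc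
      η γ hη hγ
    obtain ⟨C2, hC2, h2⟩ := card_zeros (fun i => w (Fin.succ i)) (fun i => hw _) r hr0
    obtain ⟨c3, K3, hc3, h3⟩ := abs_eval_le_pow (fun i => w (Fin.succ i)) r
    set ε : ℝ := η / (K3 + 1) with hε
    have hε0 : 0 < ε := by positivity
    obtain ⟨C4, hC4, h4⟩ := pow_omega_le (2 * (D + 1)) (by omega) hε0
    refine ⟨3 * C1 + 3 * C2 + 3 ^ m * (C4 * c3 ^ ε * 2), by positivity, ?_⟩
    intro B hB E hE
    have hB0 : 0 < B := by linarith
    have hBη : 1 ≤ B ^ η := Real.one_le_rpow hB hη.le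
    set W : ℝ := B ^ (∑ i : Fin m, w (Fin.succ i)) with hW
    have hW0 : 0 < W := by positivity
    have hWs : B ^ (∑ i, w i) = B ^ (w 0) * W := by
      rw [Fin.sum_univ_succ, pow_add]
    have hBw0 : B ≤ B ^ (w 0) := by
      calc B = B ^ 1 := (pow_one B).symm
        _ ≤ B ^ (w 0) := pow_le_pow_right₀ hB (hw 0)
    set Q : ℝ := B ^ (-γ) + B⁻¹ with hQ
    have hQ0 : 0 < Q := by positivity
    -- the three cases
    set PA : (Fin m → ℤ) → Prop := fun x' => ∃ g : ℕ, Squarefree g ∧ B ^ ((m : ℝ) * γ) < g ∧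
      ∀ p, (g : ℤ) ∣ eval x' (cf p) with hPA
    set EA := E.filter (fun x => PA (Fin.tail x)) with hEA
    set EZ := E.filter (fun x => eval (Fin.tail x) r = 0) with hEZ
    set EB := E.filter (fun x => ¬ PA (Fin.tail x) ∧ eval (Fin.tail x) r ≠ 0) with hEB
    have hcover : E ⊆ EA ∪ (EZ ∪ EB) := by
      intro x hx
      simp only [mem_union, hEA, hEZ, hEB, mem_filter]
      tauto
    have hcard : (E.card : ℝ) ≤ EA.card + (EZ.card + EB.card) := by
      have := (card_le_card hcover).trans ((card_union_le _ _).trans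
        (Nat.add_le_add_left (card_union_le _ _) _))
      exact_mod_cast this
    have hEbox : ∀ y x', (Fin.cons y x' : Fin (m + 1) → ℤ) ∈ E →
        |(y : ℝ)| ≤ B ^ (w 0) ∧ ∀ i, |(x' i : ℝ)| ≤ B ^ (w (Fin.succ i)) := by
      intro y x' hx
      exact box_cons.1 (hE _ hx).1
    have htail : ∀ x ∈ E, ∀ i, |((Fin.tail x i : ℤ) : ℝ)| ≤ B ^ (w (Fin.succ i)) := by
      intro x hx i
      exact (hE x hx).1 (Fin.succ i)
    have hYcard : ∀ Y : Finset ℤ, (∀ y ∈ Y, |(y : ℝ)| ≤ B ^ (w 0)) →
        (Y.card : ℝ) ≤ 3 * B ^ (w 0) := by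
      intro Y hY
      have h5 : Y ⊆ Icc (-⌊B ^ (w 0)⌋) ⌊B ^ (w 0)⌋ := fun y hy => mem_Icc_floor.2 (hY y hy)
      have h6 : (Y.card : ℝ) ≤ ((Icc (-⌊B ^ (w 0)⌋) ⌊B ^ (w 0)⌋).card : ℝ) := by
        exact_mod_cast card_le_card h5
      exact h6.trans (card_Icc_floor (one_le_pow₀ hB)).2
    -- case A
    have hA : (EA.card : ℝ) ≤ 3 * C1 * (B ^ η * (B ^ (w 0) * W) * Q) := by
      have h5 := card_fibres EA (3 * B ^ (w 0)) (EA.image Fin.tail)
        (fun x hx => mem_image_of_mem _ hx) (by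
          intro x' _ Y hY
          exact hYcard Y fun y hy => (hEbox y x' (mem_filter.1 (hY y hy)).1).1)
      have h6 := h1 B hB (EA.image Fin.tail) (by
        intro x' hx'
        obtain ⟨x, hx, rfl⟩ := mem_image.1 hx'
        obtain ⟨hxE, hxA⟩ := mem_filter.1 hx
        exact ⟨htail x hxE, hxA⟩)
      calc (EA.card : ℝ) ≤ ((EA.image Fin.tail).card : ℝ) * (3 * B ^ (w 0)) := h5
        _ ≤ (C1 * (B ^ η * W * Q)) * (3 * B ^ (w 0)) :=
            mul_le_mul_of_nonneg_right h6 (by positivity)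
        _ = _ := by ring
    -- case Z
    have hZ : (EZ.card : ℝ) ≤ 3 * C2 * (B ^ η * (B ^ (w 0) * W) * Q) := by
      have h5 := card_fibres EZ (3 * B ^ (w 0)) (EZ.image Fin.tail)
        (fun x hx => mem_image_of_mem _ hx) (by
          intro x' _ Y hY
          exact hYcard Y fun y hy => (hEbox y x' (mem_filter.1 (hY y hy)).1).1)
      have h6 := h2 B hB (EZ.image Fin.tail) (by
        intro x' hx'
        obtain ⟨x, hx, rfl⟩ := mem_image.1 hx'
        obtain ⟨hxE, hxA⟩ := mem_filter.1 hx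
        exact ⟨htail x hxE, hxA⟩)
      have h7 : W / B ≤ B ^ η * W * Q := by
        have h8 : B⁻¹ ≤ Q := by
          have : 0 < B ^ (-γ) := Real.rpow_pos_of_pos hB0 _
          linarith
        calc W / B = 1 * W * B⁻¹ := by ring
          _ ≤ B ^ η * W * Q := by gcongr
      calc (EZ.card : ℝ) ≤ ((EZ.image Fin.tail).card : ℝ) * (3 * B ^ (w 0)) := h5
        _ ≤ (C2 * (B ^ η * W * Q)) * (3 * B ^ (w 0)) :=
            mul_le_mul_of_nonneg_right
              (h6.trans (mul_le_mul_of_nonneg_left h7 hC2)) (by positivity)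
        _ = _ := by ring
    -- case B
    have hBc : (EB.card : ℝ) ≤ 3 ^ m * (C4 * c3 ^ ε * 2) * (B ^ η * (B ^ (w 0) * W) * Q) := by
      have h5 := card_fibres EB (C4 * c3 ^ ε * B ^ η * (2 * B ^ (w 0) * Q))
        (box (fun i => w (Fin.succ i)) B)
        (fun x hx => mem_box.2 (htail x (mem_filter.1 hx).1)) (by
          intro x' hx' Y hY
          rcases Y.eq_empty_or_nonempty with hYe | ⟨y0, hy0⟩
          · rw [hYe]
            simp only [card_empty, Nat.cast_zero]
            positivity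
          have hy0' := (mem_filter.1 (hY y0 hy0)).2
          rw [Fin.tail_cons] at hy0'
          obtain ⟨hnA, hr'⟩ := hy0'
          have hev : ∀ y i, eval (Fin.cons y x' : Fin (m + 1) → ℤ) (f i) =
              ((F i).map (eval x')).eval y := fun y i => eval_eq_eval_mv_eval' x' y (f i)
          have h6 := fibre_bound (fun i => (F i).map (eval x')) (D + 1)
            (fun i => (Polynomial.natDegree_map_le).trans ((hFD i).trans (by omega))) (by omega)
            (eval x' r) hr' (by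
              intro y g hg
              -- `r(x')` lies in the ideal generated by the values
              have h7 : ∀ q ∈ Ideal.span (Set.range F), (g : ℤ) ∣ (q.map (eval x')).eval y := by
                intro q hq
                induction hq using Submodule.span_induction with
                | mem q hq => obtain ⟨i, rfl⟩ := hq; exact hg i
                | zero => simp
                | add a b _ _ ha hb =>
                  rw [Polynomial.map_add, Polynomial.eval_add]; exact dvd_add ha hb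
                | smul a b _ hb =>
                  rw [smul_eq_mul, Polynomial.map_mul, Polynomial.eval_mul]
                  exact Dvd.dvd.mul_left hb _
              have h8 := h7 _ hrI
              rwa [Polynomial.map_C, Polynomial.eval_C] at h8)
            (B ^ ((m : ℝ) * γ)) (B ^ γ) (B ^ (w 0)) (by
              intro g hg hgd
              by_contra hcon
              push Not at hcon
              refine hnA ⟨g, hg, hcon, fun p => ?_⟩
              have := hgd p.1 p.2
              rwa [Polynomial.coeff_map] at this)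
            (Real.rpow_pos_of_pos hB0 _) (by positivity) Y (by
              intro y hy
              have hyE := (mem_filter.1 (hY y hy)).1
              refine ⟨(hEbox y x' hyE).1, ?_⟩
              obtain ⟨-, g, hg, hgB, hgd⟩ := hE _ hyE
              refine ⟨g, hg, ?_, fun i => ?_⟩
              · rw [← Real.rpow_add hB0]
                push_cast at hgB
                have h7 : ((m : ℝ) + 1) * γ = (m : ℝ) * γ + γ := by ring
                rwa [h7] at hgB
              · have := hgd i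
                rwa [hev] at this)
          refine h6.trans (mul_le_mul ?_ ?_ (by positivity) (by positivity))
          · have h7 := h4 (eval x' r).natAbs (Int.natAbs_ne_zero.2 hr')
            refine h7.trans ?_
            have h8 := h3 B hB x' (fun i => mem_box.1 hx' i)
            have h9 : (((eval x' r).natAbs : ℕ) : ℝ) = |((eval x' r : ℤ) : ℝ)| := by
              rw [Nat.cast_natAbs]
              push_cast
              rfl
            rw [h9, mul_assoc]
            refine mul_le_mul_of_nonneg_left ?_ (by linarith)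
            calc |((eval x' r : ℤ) : ℝ)| ^ ε ≤ (c3 * B ^ K3) ^ ε :=
                  Real.rpow_le_rpow (abs_nonneg _) h8 hε0.le
              _ = c3 ^ ε * B ^ ((K3 : ℝ) * ε) := by
                  rw [Real.mul_rpow (by linarith) (by positivity), ← Real.rpow_natCast,
                    ← Real.rpow_mul hB0.le]
              _ ≤ c3 ^ ε * B ^ η := by
                  refine mul_le_mul_of_nonneg_left ?_ (by positivity)
                  refine Real.rpow_le_rpow_of_exponent_le hB ?_
                  rw [hε, ← mul_div_assoc, div_le_iff₀ (by positivity)]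
                  nlinarith
          · have h7 : 2 * B ^ (w 0) / B ^ γ = 2 * B ^ (w 0) * B ^ (-γ) := by
              rw [Real.rpow_neg hB0.le, div_eq_mul_inv]
            rw [h7, hQ, mul_add]
            have h8 : (2 : ℝ) ≤ 2 * B ^ (w 0) * B⁻¹ := by
              rw [← div_eq_mul_inv, le_div_iff₀ hB0]
              linarith
            linarith)
      calc (EB.card : ℝ) ≤ ((box (fun i => w (Fin.succ i)) B).card : ℝ) *
            (C4 * c3 ^ ε * B ^ η * (2 * B ^ (w 0) * Q)) := h5
        _ ≤ (3 ^ m * W) * (C4 * c3 ^ ε * B ^ η * (2 * B ^ (w 0) * Q)) :=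
            mul_le_mul_of_nonneg_right (card_box _ hB) (by positivity)
        _ = _ := by ring
    calc (E.card : ℝ) ≤ EA.card + (EZ.card + EB.card) := hcard
      _ ≤ 3 * C1 * (B ^ η * (B ^ (w 0) * W) * Q) + (3 * C2 * (B ^ η * (B ^ (w 0) * W) * Q) +
          3 ^ m * (C4 * c3 ^ ε * 2) * (B ^ η * (B ^ (w 0) * W) * Q)) := by
          linarith
      _ = _ := by rw [hWs]; ring

end Pool.Agent.Helper79.Vojta
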