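import Pool.Agent.Helper79.Vojta.Radical

/-!
# Divisors with many components
-/

set_option autoImplicit false

namespace Pool.Agent.Helper79.Vojta

open Finset MvPolynomial Pool.Agent.Helper23.Vojta

/-- Bonferroni's inequality. -/
theorem bonferroni {k : ℕ} (P : Fin k → Finset ℕ) (L : ℕ → ℝ) (hL : ∀ p, 0 ≤ L p) :
    ∑ j, ∑ p ∈ P j, L p ≤ ∑ p ∈ univ.biUnion P, L p +
      (1 / 2) * ∑ q ∈ (univ : Finset (Fin k)).offDiag, ∑ p ∈ P q.1 ∩ P q.2, L p := by
  classical
  set U := univ.biUnion P with hU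
  have hPU : ∀ j, P j ⊆ U := fun j => subset_biUnion_of_mem P (mem_univ j)
  have h1 : ∀ s : Finset ℕ, s ⊆ U → ∑ p ∈ s, L p = ∑ p ∈ U, if p ∈ s then L p else 0 := by
    intro s hs
    rw [sum_ite_mem, inter_eq_right.2 hs]
  have h2 : ∑ j, ∑ p ∈ P j, L p = ∑ p ∈ U, ∑ j, if p ∈ P j then L p else 0 := by
    rw [sum_comm]
    exact sum_congr rfl fun j _ => h1 _ (hPU j)
  have h3 : ∑ q ∈ (univ : Finset (Fin k)).offDiag, ∑ p ∈ P q.1 ∩ P q.2, L p =
      ∑ p ∈ U, ∑ q ∈ (univ : Finset (Fin k)).offDiag, if p ∈ P q.1 ∩ P q.2 then L p else 0 := by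
    rw [sum_comm]
    exact sum_congr rfl fun q _ => h1 _ (inter_subset_left.trans (hPU _))
  rw [h2, h3, mul_sum, ← sum_add_distrib]
  refine sum_le_sum fun p hp => ?_
  set T : Finset (Fin k) := univ.filter (fun j => p ∈ P j) with hT
  have h4 : ∑ j, (if p ∈ P j then L p else 0) = T.card * L p := by
    rw [← sum_filter, sum_const, nsmul_eq_mul]
  have h5 : ∑ q ∈ (univ : Finset (Fin k)).offDiag, (if p ∈ P q.1 ∩ P q.2 then L p else 0) =
      T.offDiag.card * L p := by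
    rw [← sum_filter, sum_const, nsmul_eq_mul]
    congr 3
    ext q
    simp only [mem_filter, mem_offDiag, mem_univ, true_and, mem_inter, hT]
    tauto
  have h6 : 1 ≤ T.card := by
    rw [Nat.one_le_iff_ne_zero, card_ne_zero]
    obtain ⟨j, -, hj⟩ := mem_biUnion.1 hp
    exact ⟨j, mem_filter.2 ⟨mem_univ _, hj⟩⟩
  have h7 : (T.offDiag.card : ℝ) = (T.card : ℝ) * T.card - T.card := by
    rw [offDiag_card, Nat.cast_sub (Nat.le_mul_self _)]
    push_cast
    ring
  rw [h4, h5, h7]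
  have h8 : (1 : ℝ) ≤ T.card := by exact_mod_cast h6
  have h9 := hL p
  have h10 : (T.card : ℝ) ≤ 1 + (1 / 2) * ((T.card : ℝ) * T.card - T.card) := by
    rcases Nat.lt_or_ge T.card 2 with h | h
    · have : T.card = 1 := by omega
      rw [this]
      norm_num
    · have h11 : (2 : ℝ) ≤ T.card := by exact_mod_cast h
      nlinarith
  nlinarith

theorem log_prod_primes (s : Finset ℕ) (hs : ∀ p ∈ s, p.Prime) :
    Real.log ((∏ p ∈ s, p : ℕ) : ℝ) = ∑ p ∈ s, Real.log p := by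
  rw [Nat.cast_prod, Real.log_prod]
  intro p hp
  exact_mod_cast (hs p hp).ne_zero

theorem squarefree_prod_primes (s : Finset ℕ) (hs : ∀ p ∈ s, p.Prime) :
    Squarefree (∏ p ∈ s, p) := by
  classical
  induction s using Finset.induction_on with
  | empty => simp
  | insert a s ha ih =>
    rw [prod_insert ha]
    have h1 : Nat.Coprime a (∏ p ∈ s, p) := by
      refine Nat.Coprime.prod_right fun q hq => ?_
      exact (Nat.coprime_primes (hs a (mem_insert_self _ _)) (hs q (mem_insert_of_mem hq))).2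
        (fun h => ha (h ▸ hq))
    rw [Nat.squarefree_mul h1]
    exact ⟨(hs a (mem_insert_self _ _)).prime.squarefree,
      ih fun p hp => hs p (mem_insert_of_mem hp)⟩

theorem mem_primeFactors_prod {k : ℕ} (a : Fin k → ℕ) (ha : ∀ j, a j ≠ 0) (p : ℕ) :
    p ∈ (∏ j, a j).primeFactors ↔ ∃ j, p ∈ (a j).primeFactors := by
  rw [Nat.mem_primeFactors]
  constructor
  · rintro ⟨hp, hd, -⟩
    obtain ⟨j, -, hj⟩ := (hp.prime.dvd_finsetProd_iff _).1 hd
    exact ⟨j, Nat.mem_primeFactors.2 ⟨hp, hj, ha j⟩⟩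
  · rintro ⟨j, hj⟩
    obtain ⟨hp, hd, -⟩ := Nat.mem_primeFactors.1 hj
    exact ⟨hp, hd.trans (dvd_prod_of_mem a (mem_univ j)), prod_ne_zero_iff.2 fun j _ => ha j⟩

open Classical in
theorem many_main {n : ℕ} (hn : 1 ≤ n) (w : Fin (n + 1) → ℕ) (hw : ∀ i, 1 ≤ w i)
    (S : Finset ℕ) (hS : ∀ p ∈ S, p.Prime) {k : ℕ}
    (F : Fin k → MvPolynomial (Fin (n + 1)) ℤ) (d : Fin k → ℕ)
    (hF : ∀ j, IsWeightedHomogeneous w (F j) (d j))
    (hcop : Pairwise fun i j => IsRelPrime (F i) (F j))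
    (v : Fin k → Fin (n + 1)) (hv : ∀ j, v j ∈ (F j).vars) (δ c ρ : ℝ)
    (hδ : (∑ i, w i : ℕ) + δ ≤ (∑ j, d j : ℕ)) (hρ1 : ρ < 1)
    (hρ : ρ * (k + (n + 1) * (k * (k - 1) / 2)) <
      (∑ j, w (v j) : ℕ) - ((∑ j, d j : ℕ) - (∑ i, w i : ℕ) - δ)) :
    ∃ C : ℝ, ∀ B : ℝ, 1 ≤ B →
      ({x : Fin (n + 1) → ℤ | IsIntegralPoint w S x ∧ height w x ≤ B ∧
          truncatedCount S (∏ j, F j) x
            < ((∑ j, d j : ℕ) - (∑ i, w i : ℕ) - δ) * Real.log (height w x) + c}.ncard : ℝ)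
        ≤ C * B ^ (-ρ) *
          ({x : Fin (n + 1) → ℤ | IsIntegralPoint w S x ∧ height w x ≤ B}.ncard : ℝ) := by
  set A : ℝ := ((∑ j, d j : ℕ) : ℝ) - (∑ i, w i : ℕ) - δ with hA
  have hA0 : 0 ≤ A := by rw [hA]; linarith
  set M : ℝ := k + (n + 1) * (k * (k - 1) / 2) with hM
  have hkk : (0 : ℝ) ≤ k * (k - 1) := by
    rcases Nat.eq_zero_or_pos k with h | h
    · rw [h]; norm_num
    · have : (1 : ℝ) ≤ k := by exact_mod_cast h
      nlinarith
  have hM0 : 0 ≤ M := by positivity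
  set α : ℝ := ((∑ j, w (v j) : ℕ) : ℝ) with hα
  -- the empty divisor is excluded
  rcases Nat.eq_zero_or_pos k with hk0 | hk0
  · exfalso
    subst hk0
    simp only [univ_eq_empty, sum_empty, Nat.cast_zero] at hα
    rw [hα] at hρ
    have : M = 0 := by rw [hM]; norm_num
    rw [this] at hρ
    linarith
  have hk1 : (1 : ℝ) ≤ k := by exact_mod_cast hk0
  by_cases hρ0 : ρ ≤ 0
  · refine ⟨1, ?_⟩
    intro B hB
    have hfin : {x : Fin (n + 1) → ℤ | IsIntegralPoint w S x ∧ height w x ≤ B}.Finite :=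
      (finite_box hw B (by linarith)).subset (fun x hx => hx.2)
    have h1 := Set.ncard_le_ncard (s := {x : Fin (n + 1) → ℤ | IsIntegralPoint w S x ∧
      height w x ≤ B ∧ truncatedCount S (∏ j, F j) x < A * Real.log (height w x) + c})
      (t := {x : Fin (n + 1) → ℤ | IsIntegralPoint w S x ∧ height w x ≤ B})
      (fun x hx => ⟨hx.1, hx.2.1⟩) hfin
    have h2 : 1 ≤ B ^ (-ρ) := Real.one_le_rpow hB (by linarith)
    have h3 : ({x : Fin (n + 1) → ℤ | IsIntegralPoint w S x ∧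
      height w x ≤ B ∧ truncatedCount S (∏ j, F j) x < A * Real.log (height w x) + c}.ncard : ℝ) ≤
      ({x : Fin (n + 1) → ℤ | IsIntegralPoint w S x ∧ height w x ≤ B}.ncard : ℝ) := by
      exact_mod_cast h1
    refine h3.trans ?_
    rw [one_mul]
    exact le_mul_of_one_le_left (Nat.cast_nonneg _) h2
  push Not at hρ0
  -- parameters
  set τ : ℝ := α - A with hτ
  have hτρ : 0 < τ - ρ * M := by linarith
  set η : ℝ := min (1 - ρ) ((τ - ρ * M) / (M + 1)) with hη
  have hη0 : 0 < η := lt_min (by linarith) (by positivity)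
  have hη1 : ρ + η ≤ 1 := by
    have := min_le_left (1 - ρ) ((τ - ρ * M) / (M + 1))
    linarith
  have hηM : (ρ + η) * M ≤ τ := by
    have h1 : η ≤ (τ - ρ * M) / (M + 1) := min_le_right _ _
    rw [le_div_iff₀ (by linarith)] at h1
    nlinarith
  set κ : ℝ := ρ + η with hκ
  have hκ0 : 0 < κ := by positivity
  have hF0 : ∀ j, F j ≠ 0 := by
    intro j h0
    have := hv j
    rw [h0, vars_0] at this
    exact notMem_empty _ this
  have hκw : ∀ j, κ ≤ (w (v j) : ℝ) := fun j =>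
    hη1.trans (by exact_mod_cast hw (v j))
  choose C1 hC10 hC1 using fun j => rad_count hw hS (hF0 j) (hF j) (hv j) κ η (Real.exp |c|) hη0
    (Real.exp_pos _).le (hκw j)
  have hcopf : ∀ q : Fin k × Fin k, q ∈ (univ : Finset (Fin k)).offDiag →
      CopFam (fun i : Fin 2 => if i = 0 then F q.1 else F q.2) := by
    intro q hq h hh
    have h1 : h ∣ F q.1 := by simpa using hh 0
    have h2 : h ∣ F q.2 := by simpa using hh 1
    exact hcop (mem_offDiag.1 hq).2.2 h1 h2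
  have hgcd : ∀ q : Fin k × Fin k, ∃ C : ℝ, 0 ≤ C ∧ (q ∈ (univ : Finset (Fin k)).offDiag →
      ∀ B : ℝ, 1 ≤ B → ∀ E : Finset (Fin (n + 1) → ℤ),
      (∀ x ∈ E, (∀ i, |(x i : ℝ)| ≤ B ^ (w i)) ∧ ∃ g : ℕ, Squarefree g ∧
        B ^ (((n + 1 : ℕ) : ℝ) * κ) < g ∧
          ∀ i : Fin 2, (g : ℤ) ∣ eval x (if i = 0 then F q.1 else F q.2)) →
      (E.card : ℝ) ≤ C * (B ^ η * B ^ (∑ i, w i) * (B ^ (-κ) + B⁻¹))) := by
    intro q
    by_cases hq : q ∈ (univ : Finset (Fin k)).offDiag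
    · obtain ⟨C, hC0, hC⟩ := gcd_count (n + 1) w hw (Fin 2) _ (hcopf q hq) η κ hη0 hκ0.le
      exact ⟨C, hC0, fun _ => hC⟩
    · exact ⟨0, le_rfl, fun h => absurd h hq⟩
  choose C2 hC20 hC2 using hgcd
  obtain ⟨c0, hc0, hpts⟩ := points_ge hn w hw S hS
  refine ⟨(2 * ∑ j, C1 j + 2 * ∑ q ∈ (univ : Finset (Fin k)).offDiag, C2 q) / c0, ?_⟩
  intro B hB
  have hB0 : 0 < B := by linarith
  have hlogB : 0 ≤ Real.log B := Real.log_nonneg hB
  set E0 : Set (Fin (n + 1) → ℤ) := {x | IsIntegralPoint w S x ∧ height w x ≤ B ∧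
    truncatedCount S (∏ j, F j) x < A * Real.log (height w x) + c} with hE0
  have hfin : E0.Finite := (finite_box hw B hB0.le).subset (fun x hx => hx.2.1)
  rw [Set.ncard_eq_toFinset_card _ hfin]
  set E : Finset (Fin (n + 1) → ℤ) := hfin.toFinset with hE
  have hEm : ∀ x ∈ E, (∀ i, |(x i : ℝ)| ≤ B ^ (w i)) ∧
      truncatedCount S (∏ j, F j) x < A * Real.log B + c := by
    intro x hx
    rw [hE, Set.Finite.mem_toFinset] at hx
    obtain ⟨_, hxB, hxN⟩ := hx
    refine ⟨(height_le_iff hw x hB0.le).1 hxB, lt_of_lt_of_le hxN ?_⟩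
    have hlog : Real.log (height w x) ≤ Real.log B := by
      rcases le_or_gt (height w x) 0 with h0 | h0
      · have h00 : 0 ≤ height w x := by
          unfold height
          exact (Real.rpow_nonneg (abs_nonneg _) _).trans
            (Finset.le_sup' (fun i => |(x i : ℝ)| ^ (1 / (w i : ℝ))) (Finset.mem_univ 0))
        have : height w x = 0 := le_antisymm h0 h00
        rw [this, Real.log_zero]
        exact hlogB
      · exact Real.log_le_log h0 hxB
    nlinarith [mul_le_mul_of_nonneg_left hlog hA0]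
  set E1 : Fin k → Finset (Fin (n + 1) → ℤ) := fun j => E.filter (fun x =>
    eval x (F j) = 0 ∨ (rad S (F j) x : ℝ) ≤ Real.exp |c| * B ^ ((w (v j) : ℝ) - κ)) with hE1
  set E2 : Fin k × Fin k → Finset (Fin (n + 1) → ℤ) := fun q => E.filter (fun x =>
    ∃ g : ℕ, Squarefree g ∧ B ^ (((n + 1 : ℕ) : ℝ) * κ) < g ∧
      ∀ i : Fin 2, (g : ℤ) ∣ eval x (if i = 0 then F q.1 else F q.2)) with hE2
  have hcover : E ⊆ (univ.biUnion E1) ∪ ((univ : Finset (Fin k)).offDiag.biUnion E2) := by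
    intro x hx
    by_contra hcon
    rw [mem_union, not_or, mem_biUnion, mem_biUnion] at hcon
    push Not at hcon
    obtain ⟨hn1, hn2⟩ := hcon
    have h1 : ∀ j, eval x (F j) ≠ 0 ∧
        Real.exp |c| * B ^ ((w (v j) : ℝ) - κ) < (rad S (F j) x : ℝ) := by
      intro j
      have h2 := hn1 j (mem_univ j)
      rw [hE1, mem_filter, not_and] at h2
      have h3 := h2 hx
      push Not at h3
      exact h3
    have h2 : ∀ q ∈ (univ : Finset (Fin k)).offDiag, ∀ g : ℕ, Squarefree g →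
        (g : ℤ) ∣ eval x (F q.1) → (g : ℤ) ∣ eval x (F q.2) →
          (g : ℝ) ≤ B ^ (((n + 1 : ℕ) : ℝ) * κ) := by
      intro q hq g hg hg1 hg2
      by_contra hcon
      push Not at hcon
      refine hn2 q hq (mem_filter.2 ⟨hx, g, hg, hcon, ?_⟩)
      intro i
      split_ifs
      · exact hg1
      · exact hg2
    set P : Fin k → Finset ℕ := fun j => (eval x (F j)).natAbs.primeFactors \ S with hP
    have hPp : ∀ j, ∀ p ∈ P j, p.Prime := fun j p hp =>
      Nat.prime_of_mem_primeFactors (mem_sdiff.1 hp).1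
    have hPd : ∀ j, ∀ p ∈ P j, (p : ℤ) ∣ eval x (F j) := fun j p hp =>
      Int.natCast_dvd.2 (Nat.dvd_of_mem_primeFactors (mem_sdiff.1 hp).1)
    have hunion : (eval x (∏ j, F j)).natAbs.primeFactors \ S = univ.biUnion P := by
      rw [map_prod]
      have h3 : (∏ j, eval x (F j)).natAbs = ∏ j, (eval x (F j)).natAbs := by
        exact map_prod Int.natAbsHom _ _
      rw [h3]
      ext p
      rw [mem_sdiff, mem_primeFactors_prod _ (fun j => Int.natAbs_ne_zero.2 (h1 j).1)]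
      simp only [mem_sdiff, mem_biUnion, hP, mem_univ, true_and]
      constructor
      · rintro ⟨⟨j, hj⟩, hp⟩
        exact ⟨j, hj, hp⟩
      · rintro ⟨j, hj, hp⟩
        exact ⟨⟨j, hj⟩, hp⟩
    have hb := bonferroni P (fun p => Real.log p) (fun p => Real.log_natCast_nonneg p)
    rw [← hunion] at hb
    have h3 : ∀ j, |c| + ((w (v j) : ℝ) - κ) * Real.log B ≤ ∑ p ∈ P j, Real.log p := by
      intro j
      have h4 := Real.log_le_log (by positivity) (h1 j).2.le
      rw [Real.log_mul (Real.exp_pos _).ne' (Real.rpow_pos_of_pos hB0 _).ne', Real.log_exp,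
        Real.log_rpow hB0] at h4
      refine h4.trans (le_of_eq ?_)
      exact log_prod_primes _ (hPp j)
    have h4 : ∀ q ∈ (univ : Finset (Fin k)).offDiag,
        ∑ p ∈ P q.1 ∩ P q.2, Real.log p ≤ ((n + 1 : ℕ) : ℝ) * κ * Real.log B := by
      intro q hq
      have h5 := h2 q hq (∏ p ∈ P q.1 ∩ P q.2, p)
        (squarefree_prod_primes _ fun p hp => hPp q.1 p (mem_inter.1 hp).1)
        (prod_dvd_int (fun p hp => hPp q.1 p (mem_inter.1 hp).1)
          fun p hp => hPd q.1 p (mem_inter.1 hp).1)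
        (prod_dvd_int (fun p hp => hPp q.1 p (mem_inter.1 hp).1)
          fun p hp => hPd q.2 p (mem_inter.1 hp).2)
      rw [← log_prod_primes _ fun p hp => hPp q.1 p (mem_inter.1 hp).1, ← Real.log_rpow hB0]
      refine Real.log_le_log ?_ h5
      exact_mod_cast prod_pos fun p hp => (hPp q.1 p (mem_inter.1 hp).1).pos
    have h5 : k * |c| + (α - k * κ) * Real.log B ≤ ∑ j, ∑ p ∈ P j, Real.log p := by
      have h6 := sum_le_sum (s := univ) fun j (_ : j ∈ (univ : Finset (Fin k))) => h3 j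
      refine le_trans (le_of_eq ?_) h6
      rw [sum_add_distrib, sum_const, card_univ, Fintype.card_fin, nsmul_eq_mul, ← sum_mul,
        sum_sub_distrib, sum_const, card_univ, Fintype.card_fin, nsmul_eq_mul, hα]
      push_cast
      ring
    have h6 : ∑ q ∈ (univ : Finset (Fin k)).offDiag, ∑ p ∈ P q.1 ∩ P q.2, Real.log p ≤
        (k * (k - 1)) * (((n + 1 : ℕ) : ℝ) * κ * Real.log B) := by
      refine (sum_le_sum h4).trans (le_of_eq ?_)
      rw [sum_const, nsmul_eq_mul, offDiag_card, card_univ, Fintype.card_fin,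
        Nat.cast_sub (Nat.le_mul_self _)]
      push_cast
      ring
    have h7 := (hEm x hx).2
    unfold truncatedCount at h7
    have h8 : |c| ≤ k * |c| := le_mul_of_one_le_left (abs_nonneg _) hk1
    have h9 : c ≤ |c| := le_abs_self c
    have h10 : (τ - κ * M) * Real.log B < 0 := by
      have h11 : k * |c| + (α - k * κ) * Real.log B < A * Real.log B + c +
          (1 / 2) * ((k * (k - 1)) * (((n + 1 : ℕ) : ℝ) * κ * Real.log B)) := by
        linarith
      have h12 : (τ - κ * M) * Real.log B = (α - k * κ) * Real.log B - A * Real.log B -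
          (1 / 2) * ((k * (k - 1)) * (((n + 1 : ℕ) : ℝ) * κ * Real.log B)) := by
        rw [hτ, hM]
        push_cast
        ring
      rw [h12]
      linarith
    have h11 : 0 ≤ (τ - κ * M) * Real.log B := mul_nonneg (by linarith) hlogB
    linarith
  have hBρ : 0 < B ^ (-ρ) := Real.rpow_pos_of_pos hB0 _
  have hBinv : B⁻¹ ≤ B ^ (-ρ) := by
    rw [← Real.rpow_neg_one]
    exact Real.rpow_le_rpow_of_exponent_le hB (by linarith)
  have hBs : 0 < B ^ (∑ i, w i) := by positivity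
  have hE1c : ∀ j, ((E1 j).card : ℝ) ≤ 2 * C1 j * (B ^ (∑ i, w i) * B ^ (-ρ)) := by
    intro j
    have h1 := hC1 j B hB (E1 j) (by
      intro x hx
      obtain ⟨hxE, hx1⟩ := mem_filter.1 hx
      exact ⟨(hEm x hxE).1, hx1⟩)
    have h2 : η - κ = -ρ := by rw [hκ]; ring
    rw [h2] at h1
    refine h1.trans ?_
    have h3 : B ^ (∑ i, w i) * (B ^ (-ρ) + B⁻¹) ≤ 2 * (B ^ (∑ i, w i) * B ^ (-ρ)) := by
      nlinarith
    calc _ ≤ C1 j * (2 * (B ^ (∑ i, w i) * B ^ (-ρ))) := mul_le_mul_of_nonneg_left h3 (hC10 j)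
      _ = _ := by ring
  have hE2c : ∀ q ∈ (univ : Finset (Fin k)).offDiag,
      ((E2 q).card : ℝ) ≤ 2 * C2 q * (B ^ (∑ i, w i) * B ^ (-ρ)) := by
    intro q hq
    have h1 := hC2 q hq B hB (E2 q) (by
      intro x hx
      obtain ⟨hxE, hx1⟩ := mem_filter.1 hx
      exact ⟨(hEm x hxE).1, hx1⟩)
    refine h1.trans ?_
    have h3 : B ^ η * (B ^ (-κ) + B⁻¹) ≤ 2 * B ^ (-ρ) := by
      rw [mul_add, ← Real.rpow_add hB0, ← Real.rpow_neg_one, ← Real.rpow_add hB0]
      have h4 : η + -κ = -ρ := by rw [hκ]; ring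
      rw [h4]
      have h5 : B ^ (η + -1) ≤ B ^ (-ρ) := Real.rpow_le_rpow_of_exponent_le hB (by linarith)
      linarith
    have h4 : B ^ η * B ^ (∑ i, w i) * (B ^ (-κ) + B⁻¹) ≤
        2 * (B ^ (∑ i, w i) * B ^ (-ρ)) := by
      calc _ = B ^ (∑ i, w i) * (B ^ η * (B ^ (-κ) + B⁻¹)) := by ring
        _ ≤ B ^ (∑ i, w i) * (2 * B ^ (-ρ)) := mul_le_mul_of_nonneg_left h3 hBs.le
        _ = _ := by ring
    calc _ ≤ C2 q * (2 * (B ^ (∑ i, w i) * B ^ (-ρ))) := mul_le_mul_of_nonneg_left h4 (hC20 q)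
      _ = _ := by ring
  have hcard : (E.card : ℝ) ≤ ∑ j, ((E1 j).card : ℝ) +
      ∑ q ∈ (univ : Finset (Fin k)).offDiag, ((E2 q).card : ℝ) := by
    have := (card_le_card hcover).trans ((card_union_le _ _).trans
      (Nat.add_le_add card_biUnion_le card_biUnion_le))
    exact_mod_cast this
  have hfinal : (E.card : ℝ) ≤ (2 * ∑ j, C1 j + 2 * ∑ q ∈ (univ : Finset (Fin k)).offDiag, C2 q) *
      (B ^ (∑ i, w i) * B ^ (-ρ)) := by
    refine (hcard.trans (add_le_add (sum_le_sum fun j _ => hE1c j) (sum_le_sum hE2c))).trans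
      (le_of_eq ?_)
    rw [← sum_mul, ← sum_mul, ← mul_sum, ← mul_sum]
    ring
  have hsumC : 0 ≤ 2 * ∑ j, C1 j + 2 * ∑ q ∈ (univ : Finset (Fin k)).offDiag, C2 q := by
    have h1 : 0 ≤ ∑ j, C1 j := sum_nonneg fun j _ => hC10 j
    have h2 : 0 ≤ ∑ q ∈ (univ : Finset (Fin k)).offDiag, C2 q := sum_nonneg fun q _ => hC20 q
    linarith
  have h5 : B ^ (∑ i, w i) ≤
      ({x : Fin (n + 1) → ℤ | IsIntegralPoint w S x ∧ height w x ≤ B}.ncard : ℝ) / c0 := by
    rw [le_div_iff₀ hc0, mul_comm]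
    exact hpts B hB
  calc (E.card : ℝ) ≤ (2 * ∑ j, C1 j + 2 * ∑ q ∈ (univ : Finset (Fin k)).offDiag, C2 q) *
        (B ^ (∑ i, w i) * B ^ (-ρ)) := hfinal
    _ ≤ (2 * ∑ j, C1 j + 2 * ∑ q ∈ (univ : Finset (Fin k)).offDiag, C2 q) *
        ((({x : Fin (n + 1) → ℤ | IsIntegralPoint w S x ∧ height w x ≤ B}.ncard : ℝ) / c0) *
          B ^ (-ρ)) := by gcongr
    _ = _ := by ring

end Pool.Agent.Helper79.Vojta
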