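import Pool.Agent.Helper23.Vojta.WS
import Pool.Agent.Helper79.Vojta.Gcd

/-!
# Points at which one component has a small radical
-/

set_option autoImplicit false

namespace Pool.Agent.Helper79.Vojta

open Finset MvPolynomial Pool.Agent.Helper23.Vojta

/-- Replacing a variable that occurs in `F` by `F` keeps the coordinates algebraically
independent. -/
theorem algInd_update {ι : Type} [DecidableEq ι] (i : ι) (F : MvPolynomial ι ℤ)
    (hi : i ∈ F.vars) :
    AlgebraicIndependent ℤ (Function.update (X : ι → MvPolynomial ι ℤ) i F) := by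
  classical
  let S := MvPolynomial {j // j ≠ i} ℤ
  let E : MvPolynomial ι ℤ ≃ₐ[ℤ] Polynomial S :=
    (renameEquiv ℤ (Equiv.optionSubtypeNe i).symm).trans (optionEquivLeft ℤ _)
  have hE : ∀ P, E P = optionEquivLeft ℤ _ (rename (Equiv.optionSubtypeNe i).symm P) :=
    fun P => rfl
  have hEi : E (X i) = Polynomial.X := by
    rw [hE, rename_X, Equiv.optionSubtypeNe_symm_apply, dif_pos rfl, optionEquivLeft_X_none]
  have hEj : ∀ j (hj : j ≠ i), E (X j) = Polynomial.C (X ⟨j, hj⟩) := by
    intro j hj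
    rw [hE, rename_X, Equiv.optionSubtypeNe_symm_apply, dif_neg hj, optionEquivLeft_X_some]
  have hdeg : (E F).natDegree ≠ 0 := by
    rw [mem_vars_iff_degreeOf_ne_zero, degreeOf_eq_natDegree] at hi
    exact hi
  have key : ∀ P, E (aeval (Function.update (X : ι → MvPolynomial ι ℤ) i F) P) =
      (E P).comp (E F) := by
    intro P
    induction P using MvPolynomial.induction_on with
    | C a =>
      rw [aeval_C, algebraMap_eq, hE (C a), rename_C, optionEquivLeft_C, Polynomial.C_comp]
    | add p q hp hq => rw [map_add, map_add, hp, hq, map_add, Polynomial.add_comp]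
    | mul_X p j hp =>
      rw [map_mul, map_mul, hp, aeval_X, map_mul, Polynomial.mul_comp]
      congr 1
      by_cases hj : j = i
      · subst hj
        rw [Function.update_self, hEi, Polynomial.X_comp]
      · rw [Function.update_of_ne hj, hEj j hj, Polynomial.C_comp]
  rw [algebraicIndependent_iff]
  intro P h0
  have h1 := key P
  rw [h0, map_zero] at h1
  rcases Polynomial.comp_eq_zero_iff.1 h1.symm with h2 | ⟨-, h2⟩
  · exact (map_eq_zero_iff E E.injective).1 h2
  · exfalso
    apply hdeg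
    rw [h2, Polynomial.natDegree_C]

/-- Points at which a component has a small radical. -/
theorem rad_count {n : ℕ} {w : Fin (n + 1) → ℕ} (hw : ∀ i, 1 ≤ w i) {S : Finset ℕ}
    (hS : ∀ p ∈ S, p.Prime) {F : MvPolynomial (Fin (n + 1)) ℤ} (hF : F ≠ 0) {d : ℕ}
    (hFd : IsWeightedHomogeneous w F d) {v : Fin (n + 1)} (hv : v ∈ F.vars)
    (κ η R0 : ℝ) (hη : 0 < η) (hR0 : 0 ≤ R0) (hκ : κ ≤ w v) :
    ∃ C : ℝ, 0 ≤ C ∧ ∀ B : ℝ, 1 ≤ B → ∀ E : Finset (Fin (n + 1) → ℤ),
      (∀ x ∈ E, (∀ i, |(x i : ℝ)| ≤ B ^ (w i)) ∧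
        (eval x F = 0 ∨ (rad S F x : ℝ) ≤ R0 * B ^ ((w v : ℝ) - κ))) →
      (E.card : ℝ) ≤ C * (B ^ (∑ i, w i) * (B ^ (η - κ) + B⁻¹)) := by
  classical
  have hGi := algInd_update v F hv
  have hG : ∀ i, IsWeightedHomogeneous w
      (Function.update (X : Fin (n + 1) → MvPolynomial (Fin (n + 1)) ℤ) v F i)
      (Function.update w v d i) := by
    intro i
    by_cases hi : i = v
    · subst hi
      rw [Function.update_self, Function.update_self]
      exact hFd
    · rw [Function.update_of_ne hi, Function.update_of_ne hi]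
      exact isWeightedHomogeneous_X _ _ _
  obtain ⟨Z, m, hZ, hFZ, hZm, hmain⟩ := main_count hS hF hFd hGi hG
  obtain ⟨C1, hC1, h1⟩ := hmain ((w v : ℝ) - κ) R0 η (by linarith) hR0 hη
  obtain ⟨C2, hC2, h2⟩ := card_zeros w hw Z hZ
  refine ⟨C1 + C2, by positivity, ?_⟩
  intro B hB E hE
  have hB0 : 0 < B := by linarith
  set EZ := E.filter (fun x => eval x Z = 0) with hEZ
  set EN := E.filter (fun x => ¬ eval x Z = 0) with hEN
  have hsum : (E.card : ℝ) = EZ.card + EN.card := by
    rw [hEZ, hEN]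
    exact_mod_cast (card_filter_add_card_filter_not (s := E) (fun x => eval x Z = 0)).symm
  have h3 := h2 B hB EZ (by
    intro x hx
    obtain ⟨hxE, hxZ⟩ := mem_filter.1 hx
    exact ⟨(hE x hxE).1, hxZ⟩)
  have h4 := h1 B hB EN (by
    intro x hx
    obtain ⟨hxE, hxZ⟩ := mem_filter.1 hx
    refine ⟨(hE x hxE).1, hxZ, ?_⟩
    rcases (hE x hxE).2 with h5 | h5
    · exfalso
      obtain ⟨Q, hQ⟩ := hFZ
      apply hxZ
      rw [hQ, map_mul, h5, zero_mul]
    · exact h5)
  have h5 : ∑ i with ¬ Function.update (X : Fin (n + 1) → MvPolynomial (Fin (n + 1)) ℤ) v F i ∣ F,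
      ((Function.update w v d i : ℕ) : ℝ) ≤ (∑ i, w i : ℕ) - (w v : ℝ) := by
    have h6 : ∑ i with ¬ Function.update (X : Fin (n + 1) → MvPolynomial (Fin (n + 1)) ℤ) v F i ∣ F,
        (Function.update w v d i : ℕ) ≤ ∑ i ∈ univ.erase v, w i := by
      calc _ = ∑ i with ¬ Function.update (X : Fin (n + 1) → MvPolynomial (Fin (n + 1)) ℤ)
            v F i ∣ F, w i := by
            refine sum_congr rfl fun i hi => ?_
            have h7 := (mem_filter.1 hi).2
            have h8 : i ≠ v := by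
              intro h
              rw [h, Function.update_self] at h7
              exact h7 (dvd_refl _)
            rw [Function.update_of_ne h8]
        _ ≤ _ := by
            refine sum_le_sum_of_subset fun i hi => ?_
            have h7 := (mem_filter.1 hi).2
            rw [mem_erase]
            refine ⟨fun h => ?_, mem_univ _⟩
            rw [h, Function.update_self] at h7
            exact h7 (dvd_refl _)
    have h7 : ∑ i ∈ univ.erase v, w i + w v = ∑ i, w i := sum_erase_add _ _ (mem_univ v)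
    have h8 : ((∑ i ∈ univ.erase v, w i : ℕ) : ℝ) + (w v : ℝ) = ((∑ i, w i : ℕ) : ℝ) := by
      exact_mod_cast h7
    have h9 : ∑ i with ¬ Function.update (X : Fin (n + 1) → MvPolynomial (Fin (n + 1)) ℤ) v F i ∣ F,
        ((Function.update w v d i : ℕ) : ℝ) ≤ ((∑ i ∈ univ.erase v, w i : ℕ) : ℝ) := by
      rw [← Nat.cast_sum]
      exact_mod_cast h6
    linarith
  have h6 : B ^ ((w v : ℝ) - κ + η + ∑ i with ¬ Function.update
      (X : Fin (n + 1) → MvPolynomial (Fin (n + 1)) ℤ) v F i ∣ F,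
      ((Function.update w v d i : ℕ) : ℝ)) ≤ B ^ (∑ i, w i) * B ^ (η - κ) := by
    rw [← Real.rpow_natCast, ← Real.rpow_add hB0]
    refine Real.rpow_le_rpow_of_exponent_le hB ?_
    linarith
  have hBi : 0 < B⁻¹ := by positivity
  have hBη : 0 < B ^ (η - κ) := Real.rpow_pos_of_pos hB0 _
  have hBs : 0 < B ^ (∑ i, w i) := by positivity
  rw [hsum]
  have h7 : (EN.card : ℝ) ≤ C1 * (B ^ (∑ i, w i) * (B ^ (η - κ) + B⁻¹)) := by
    refine (h4.trans (mul_le_mul_of_nonneg_left h6 hC1)).trans ?_
    refine mul_le_mul_of_nonneg_left ?_ hC1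
    refine mul_le_mul_of_nonneg_left ?_ hBs.le
    linarith
  have h8 : (EZ.card : ℝ) ≤ C2 * (B ^ (∑ i, w i) * (B ^ (η - κ) + B⁻¹)) := by
    refine h3.trans (mul_le_mul_of_nonneg_left ?_ hC2)
    rw [div_eq_mul_inv]
    refine mul_le_mul_of_nonneg_left ?_ hBs.le
    linarith
  linarith

end Pool.Agent.Helper79.Vojta
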