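import Mathlib

/-!
# Elementary counting: prime factors, roots modulo a squarefree number
-/

set_option autoImplicit false

namespace Pool.Agent.Helper79.Vojta

open Finset

/-- `K ^ ω(m) ≤ C m ^ ε`. -/
theorem pow_omega_le (K : ℕ) (hK : 1 ≤ K) {ε : ℝ} (hε : 0 < ε) :
    ∃ C : ℝ, 1 ≤ C ∧ ∀ m : ℕ, m ≠ 0 → (K : ℝ) ^ m.primeFactors.card ≤ C * (m : ℝ) ^ ε := by
  classical
  have hK1 : (1 : ℝ) ≤ K := by exact_mod_cast hK
  set T : ℕ := ⌈(K : ℝ) ^ (1 / ε)⌉₊ with hT
  refine ⟨(K : ℝ) ^ T, one_le_pow₀ hK1, ?_⟩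
  intro m hm
  have h1 : (K : ℝ) ^ m.primeFactors.card =
      (∏ _p ∈ m.primeFactors.filter (· < T), (K : ℝ)) *
        ∏ _p ∈ m.primeFactors.filter (fun p => ¬ p < T), (K : ℝ) := by
    rw [← prod_const, prod_filter_mul_prod_filter_not]
  have h2 : (∏ _p ∈ m.primeFactors.filter (· < T), (K : ℝ)) ≤ (K : ℝ) ^ T := by
    rw [prod_const]
    refine pow_le_pow_right₀ hK1 ?_
    calc (m.primeFactors.filter (· < T)).card ≤ (range T).card :=
          card_le_card (fun p hp => mem_range.2 (mem_filter.1 hp).2)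
      _ = T := card_range T
  have h3 : (∏ _p ∈ m.primeFactors.filter (fun p => ¬ p < T), (K : ℝ)) ≤
      ∏ p ∈ m.primeFactors.filter (fun p => ¬ p < T), (p : ℝ) ^ ε := by
    refine prod_le_prod (fun _ _ => by positivity) ?_
    intro p hp
    have hp2 : T ≤ p := not_lt.1 (mem_filter.1 hp).2
    have hp3 : (K : ℝ) ^ (1 / ε) ≤ p := (Nat.le_ceil _).trans (by exact_mod_cast hp2)
    have h4 := Real.rpow_le_rpow (by positivity) hp3 hε.le
    rwa [← Real.rpow_mul (by positivity), one_div, inv_mul_cancel₀ hε.ne', Real.rpow_one] at h4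
  have h5 : (∏ p ∈ m.primeFactors.filter (fun p => ¬ p < T), (p : ℝ) ^ ε) ≤ (m : ℝ) ^ ε := by
    calc (∏ p ∈ m.primeFactors.filter (fun p => ¬ p < T), (p : ℝ) ^ ε)
        ≤ ∏ p ∈ m.primeFactors, (p : ℝ) ^ ε := by
          rw [← prod_filter_mul_prod_filter_not m.primeFactors (fun p => p < T)
            (fun p => (p : ℝ) ^ ε)]
          refine le_mul_of_one_le_left (prod_nonneg fun _ _ => by positivity) ?_
          have h6 : ∏ _p ∈ m.primeFactors.filter (fun p => p < T), (1 : ℝ) ≤
              ∏ p ∈ m.primeFactors.filter (fun p => p < T), (p : ℝ) ^ ε := by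
            refine prod_le_prod (fun _ _ => zero_le_one) fun p hp => ?_
            have h6 : (1 : ℝ) ≤ p := by
              exact_mod_cast (Nat.prime_of_mem_primeFactors (mem_filter.1 hp).1).one_le
            exact Real.one_le_rpow h6 hε.le
          rwa [prod_const_one] at h6
      _ = ((∏ p ∈ m.primeFactors, p : ℕ) : ℝ) ^ ε := by
          rw [Nat.cast_prod, Real.finsetProd_rpow _ _ (fun _ _ => Nat.cast_nonneg _)]
      _ ≤ (m : ℝ) ^ ε := by
          refine Real.rpow_le_rpow (Nat.cast_nonneg _) ?_ hε.le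
          exact_mod_cast Nat.le_of_dvd (Nat.pos_of_ne_zero hm) (Nat.prod_primeFactors_dvd m)
  rw [h1]
  exact mul_le_mul h2 (h3.trans h5) (prod_nonneg fun _ _ => by positivity) (by positivity)

/-- The number of squarefree divisors. -/
theorem card_squarefree_divisors {m : ℕ} (hm : m ≠ 0) :
    (m.divisors.filter Squarefree).card ≤ 2 ^ m.primeFactors.card := by
  classical
  rw [← card_powerset]
  refine card_le_card_of_injOn (fun g => g.primeFactors) ?_ ?_
  · intro g hg
    have h1 := mem_filter.1 (mem_coe.1 hg)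
    exact mem_coe.2 (mem_powerset.2 (Nat.primeFactors_mono (Nat.dvd_of_mem_divisors h1.1) hm))
  · intro g hg g' hg' h
    have h1 := mem_filter.1 (mem_coe.1 hg)
    have h2 := mem_filter.1 (mem_coe.1 hg')
    have h3 := Nat.prod_primeFactors_of_squarefree h1.2
    have h4 := Nat.prod_primeFactors_of_squarefree h2.2
    simp only at h
    rw [← h3, ← h4, h]

/-- Common roots of a family modulo a prime. -/
theorem card_roots_prime {ι : Type*} (f : ι → Polynomial ℤ) (e q : ℕ) (hq : q.Prime)
    (h : ∃ i, (f i).map (Int.castRingHom (ZMod q)) ≠ 0 ∧ (f i).natDegree ≤ e) (A : Finset ℕ)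
    (hA : ∀ r ∈ A, r < q ∧ ∀ i, (q : ℤ) ∣ (f i).eval (r : ℤ)) : A.card ≤ e := by
  classical
  have : Fact q.Prime := ⟨hq⟩
  obtain ⟨i, hi0, hie⟩ := h
  have h1 : A.card ≤ ((f i).map (Int.castRingHom (ZMod q))).roots.toFinset.card := by
    refine card_le_card_of_injOn (fun r => (r : ZMod q)) ?_ ?_
    · intro r hr
      have h2 := (hA r (mem_coe.1 hr)).2 i
      rw [mem_coe, Multiset.mem_toFinset, Polynomial.mem_roots hi0, Polynomial.IsRoot.def]
      have h3 : ((f i).map (Int.castRingHom (ZMod q))).eval ((r : ℤ) : ZMod q) =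
          (((f i).eval (r : ℤ) : ℤ) : ZMod q) := by
        have := Polynomial.eval_map_apply (f := Int.castRingHom (ZMod q)) (p := f i) (x := (r : ℤ))
        simpa using this
      have h4 : (((f i).eval (r : ℤ) : ℤ) : ZMod q) = 0 :=
        (ZMod.intCast_zmod_eq_zero_iff_dvd _ _).2 h2
      rw [h4] at h3
      simpa using h3
    · intro r hr r' hr' hrr
      have h2 := (hA r (mem_coe.1 hr)).1
      have h3 := (hA r' (mem_coe.1 hr')).1
      have h4 := (ZMod.natCast_eq_natCast_iff' r r' q).1 hrr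
      rwa [Nat.mod_eq_of_lt h2, Nat.mod_eq_of_lt h3] at h4
  refine h1.trans ((Multiset.toFinset_card_le _).trans ((Polynomial.card_roots' _).trans ?_))
  exact (Polynomial.natDegree_map_le).trans hie

/-- Common roots modulo a squarefree number `g` such that some polynomial of the family is nonzero
modulo every prime divisor of `g`. -/
theorem card_roots_mod {ι : Type*} (f : ι → Polynomial ℤ) (e g : ℕ) (hg : Squarefree g)
    (h : ∀ q : ℕ, q.Prime → q ∣ g → ∃ i, (f i).map (Int.castRingHom (ZMod q)) ≠ 0 ∧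
      (f i).natDegree ≤ e) (A : Finset ℕ)
    (hA : ∀ r ∈ A, r < g ∧ ∀ i, (g : ℤ) ∣ (f i).eval (r : ℤ)) :
    A.card ≤ e ^ g.primeFactors.card := by
  classical
  set Rt : ℕ → Finset ℕ := fun q => (range q).filter (fun s => ∀ i, (q : ℤ) ∣ (f i).eval (s : ℤ))
    with hRt
  have h1 : A.card ≤ (g.primeFactors.pi Rt).card := by
    refine card_le_card_of_injOn (fun r q _ => r % q) ?_ ?_
    · intro r hr
      rw [mem_coe, mem_pi]
      intro q hq
      have hqp := Nat.prime_of_mem_primeFactors hq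
      have hqg := Nat.dvd_of_mem_primeFactors hq
      rw [hRt, mem_filter, mem_range]
      refine ⟨Nat.mod_lt _ hqp.pos, fun i => ?_⟩
      have h2 : (q : ℤ) ∣ (f i).eval (r : ℤ) :=
        (Int.natCast_dvd_natCast.2 hqg).trans ((hA r (mem_coe.1 hr)).2 i)
      have h3 : ((r : ℤ) - ((r % q : ℕ) : ℤ)) ∣ (f i).eval (r : ℤ) - (f i).eval ((r % q : ℕ) : ℤ) :=
        Polynomial.sub_dvd_eval_sub _ _ _
      have h4 : (q : ℤ) ∣ (r : ℤ) - ((r % q : ℕ) : ℤ) := by
        push_cast
        exact Int.dvd_self_sub_emod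
      have h5 := (dvd_sub_right h2).1 (h4.trans h3)
      exact h5
    · intro r hr r' hr' hrr
      have h2 := (hA r (mem_coe.1 hr)).1
      have h3 := (hA r' (mem_coe.1 hr')).1
      have h4 : ∏ p ∈ g.primeFactors, p ∣ ((r : ℤ) - r').natAbs := by
        refine Finset.prod_primes_dvd _ (fun p hp => (Nat.prime_of_mem_primeFactors hp).prime) ?_
        intro p hp
        have h5 : r % p = r' % p := congrFun (congrFun hrr p) hp
        have h6 : (p : ℤ) ∣ (r : ℤ) - r' := by
          have h7 : (r : ℤ) % p = (r' : ℤ) % p := by exact_mod_cast h5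
          exact Int.ModEq.dvd h7.symm
        exact Int.natCast_dvd.1 h6
      rw [Nat.prod_primeFactors_of_squarefree hg] at h4
      have h5 : ((r : ℤ) - r').natAbs < g := by omega
      have h6 := Nat.eq_zero_of_dvd_of_lt h4 h5
      omega
  refine h1.trans ?_
  rw [card_pi, ← prod_const]
  refine prod_le_prod' fun q hq => ?_
  have hqp := Nat.prime_of_mem_primeFactors hq
  refine card_roots_prime f e q hqp (h q hqp (Nat.dvd_of_mem_primeFactors hq)) _ ?_
  intro r hr
  have := mem_filter.1 hr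
  exact ⟨mem_range.1 this.1, this.2⟩

/-- Common roots modulo `g` in an interval. -/
theorem card_roots_interval {ι : Type*} (f : ι → Polynomial ℤ) (e g : ℕ) (hg : Squarefree g)
    (h : ∀ q : ℕ, q.Prime → q ∣ g → ∃ i, (f i).map (Int.castRingHom (ZMod q)) ≠ 0 ∧
      (f i).natDegree ≤ e) (M : ℝ) (hM : 0 ≤ M) (A : Finset ℤ)
    (hA : ∀ r ∈ A, |(r : ℝ)| ≤ M ∧ ∀ i, (g : ℤ) ∣ (f i).eval r) :
    (A.card : ℝ) ≤ (e : ℝ) ^ g.primeFactors.card * (2 * M / g + 2) := by
  classical
  have hg0 : 0 < g := Nat.pos_of_ne_zero hg.ne_zero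
  have hgR : (0 : ℝ) < g := by exact_mod_cast hg0
  have hgZ : (0 : ℤ) < g := by exact_mod_cast hg0
  set N : ℤ := ⌊M / g⌋ with hN
  have hN0 : 0 ≤ N := Int.floor_nonneg.2 (by positivity)
  set R : Finset ℕ := (range g).filter (fun s => ∀ i, (g : ℤ) ∣ (f i).eval (s : ℤ)) with hR
  have h1 : A.card ≤ (R ×ˢ Icc (-N - 1) N).card := by
    refine card_le_card_of_injOn (fun r => ((r % g).toNat, r / g)) ?_ ?_
    · intro r hr
      have hrA := hA r (mem_coe.1 hr)
      have hm0 : 0 ≤ r % g := Int.emod_nonneg _ hgZ.ne'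
      have hm1 : r % g < g := Int.emod_lt_of_pos _ hgZ
      rw [mem_coe, mem_product]
      constructor
      · rw [hR, mem_filter, mem_range]
        refine ⟨by simp only; omega, fun i => ?_⟩
        have h3 : (r - ((r % g).toNat : ℤ)) ∣ (f i).eval r - (f i).eval ((r % g).toNat : ℤ) :=
          Polynomial.sub_dvd_eval_sub _ _ _
        have h4 : (g : ℤ) ∣ r - ((r % g).toNat : ℤ) := by
          rw [Int.toNat_of_nonneg hm0]
          exact Int.dvd_self_sub_emod
        exact (dvd_sub_right (hrA.2 i)).1 (h4.trans h3)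
      · have h5 := abs_le.1 hrA.1
        have h6 : g * (r / g) + r % g = r := Int.mul_ediv_add_emod r g
        rw [mem_Icc]
        constructor
        · by_contra hcon
          push Not at hcon
          have h7 : (r / g : ℤ) ≤ -N - 2 := by omega
          have h8 : (r : ℤ) < g * (-N - 1) := by nlinarith
          have h9 : (r : ℝ) < g * (-(N : ℝ) - 1) := by exact_mod_cast h8
          have h10 : M / g < N + 1 := Int.lt_floor_add_one _
          rw [div_lt_iff₀ hgR] at h10
          nlinarith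
        · by_contra hcon
          push Not at hcon
          have h7 : N + 1 ≤ (r / g : ℤ) := by omega
          have h8 : (g : ℤ) * (N + 1) ≤ r := by nlinarith
          have h9 : (g : ℝ) * ((N : ℝ) + 1) ≤ r := by exact_mod_cast h8
          have h10 : M / g < N + 1 := Int.lt_floor_add_one _
          rw [div_lt_iff₀ hgR] at h10
          nlinarith
    · intro r _ r' _ hrr
      simp only [Prod.mk.injEq] at hrr
      have hm0 : 0 ≤ r % g := Int.emod_nonneg _ hgZ.ne'
      have hm0' : 0 ≤ r' % g := Int.emod_nonneg _ hgZ.ne'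
      have h2 : r % g = r' % g := by omega
      rw [← Int.mul_ediv_add_emod r g, ← Int.mul_ediv_add_emod r' g, hrr.2, h2]
  have h2 : R.card ≤ e ^ g.primeFactors.card := by
    refine card_roots_mod f e g hg h R ?_
    intro r hr
    have := mem_filter.1 hr
    exact ⟨mem_range.1 this.1, this.2⟩
  have h3 : ((Icc (-N - 1) N).card : ℝ) ≤ 2 * M / g + 2 := by
    rw [Int.card_Icc]
    have h4 : ((N + 1 - (-N - 1)).toNat : ℝ) = 2 * (N : ℝ) + 2 := by
      have h5 : ((N + 1 - (-N - 1)).toNat : ℤ) = 2 * N + 2 := by omega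
      exact_mod_cast h5
    rw [h4]
    have h6 : (N : ℝ) ≤ M / g := Int.floor_le _
    have h7 : 2 * M / g = 2 * (M / g) := by ring
    linarith
  calc (A.card : ℝ) ≤ ((R ×ˢ Icc (-N - 1) N).card : ℝ) := by exact_mod_cast h1
    _ = (R.card : ℝ) * ((Icc (-N - 1) N).card : ℝ) := by rw [card_product]; push_cast; ring
    _ ≤ _ := by
      refine mul_le_mul (by exact_mod_cast h2) h3 (Nat.cast_nonneg _) (by positivity)

end Pool.Agent.Helper79.Vojta
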